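import Pool.Agent.Helper77.PPS.GoalsH

/-!
# Packet PPS-H_CHE: the reciprocals of the norms of the primes of a dyadic block
-/

namespace Pool.Agent.Helper59.PPS

open Pool.Agent.Helper77.PPS Pool.Agent.Helper17.PP

theorem h_che (h1 : P_CNT) : H_CHE := by
  intro C
  obtain ⟨C₁, hC, hP⟩ := h1 C
  refine ⟨2 * C₁ / Real.log 2, fun p B B₀ k U Λ W _ _ _ _ _ _ S hS j hj ↦ ?_⟩
  obtain ⟨hc, -⟩ := hP B S.N hS
  have hl : 0 < Real.log 2 := Real.log_pos (by norm_num)
  have hj0 : (0 : ℝ) < j := by exact_mod_cast hj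
  have h2 : (2 : ℝ) ≤ 2 ^ (j + 1) := by
    calc (2 : ℝ) = 2 ^ 1 := (pow_one _).symm
      _ ≤ 2 ^ (j + 1) := pow_le_pow_right₀ (by norm_num) (by omega)
  have hcard := hc (2 ^ (j + 1)) h2
  have hsub : S.blk j ⊆ pr S.N (2 ^ (j + 1)) := by
    intro q hq
    rw [mem_pr hS]
    unfold Sys.blk at hq
    rw [Finset.mem_filter, Set.Finite.mem_toFinset] at hq
    have := hq.1
    rw [Set.mem_setOf_eq] at this
    exact_mod_cast this
  have hcard2 : ((S.blk j).card : ℝ) ≤ ((pr S.N (2 ^ (j + 1))).card : ℝ) := by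
    exact_mod_cast Finset.card_le_card hsub
  have hterm : ∀ q ∈ S.blk j, (1 : ℝ) / S.N q ≤ 1 / 2 ^ j := by
    intro q hq
    unfold Sys.blk at hq
    rw [Finset.mem_filter] at hq
    have hb := hq.2
    unfold Sys.bl at hb
    have h3 : 2 ^ j ≤ S.N q := by
      rw [← hb]
      exact Nat.pow_log_le_self 2 (by have := S.two_le q; omega)
    have h4 : ((2 : ℝ) ^ j) ≤ S.N q := by exact_mod_cast h3
    exact one_div_le_one_div_of_le (by positivity) h4
  calc ∑ q ∈ S.blk j, (1 : ℝ) / S.N q ≤ ∑ q ∈ S.blk j, 1 / 2 ^ j := Finset.sum_le_sum hterm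
    _ = (S.blk j).card * (1 / 2 ^ j) := by rw [Finset.sum_const, nsmul_eq_mul]
    _ ≤ (C₁ * (2 ^ (j + 1) / Real.log (2 ^ (j + 1)))) * (1 / 2 ^ j) :=
      mul_le_mul_of_nonneg_right (hcard2.trans hcard) (by positivity)
    _ = 2 * C₁ / Real.log 2 / (j + 1) := by
      rw [Real.log_pow]
      push_cast
      have : (2 : ℝ) ^ j ≠ 0 := by positivity
      field_simp
      ring
    _ ≤ 2 * C₁ / Real.log 2 / j := by
      refine div_le_div_of_nonneg_left (by positivity) hj0 (by linarith)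

end Pool.Agent.Helper59.PPS
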